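import Pool.Agent.H695R3.PP.Stmts

/-!
# TaskContr: the contraction, from TaskIso, TaskAvg and TaskDich
-/

set_option autoImplicit false

open scoped BigOperators ENNReal
open MeasureTheory Pool.Agent.H695R3.PP

namespace Pool.Agent.Run7.h189.PP

theorem measurable_UR (c : ℝ) {g : ℝ → ℝ≥0∞} (hg : Measurable g) : Measurable (UR c g) := by
  unfold UR
  refine Measurable.mul ?_ ?_
  · exact ENNReal.measurable_ofReal.comp ((measurable_norm (α := ℝ)).inv)
  · exact hg.comp (measurable_const.sub measurable_id.inv)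

theorem t_CONTR (hI : TaskIso) (hA : TaskAvg) (hD : TaskDich) : TaskContr := by
  obtain ⟨C, hC1, hC⟩ := hD
  have hC0 : 0 < C := by linarith
  refine ⟨3 / (8 * C), by positivity, ?_, ?_⟩
  · rw [div_le_div_iff₀ (by positivity) (by norm_num)]
    linarith
  intro ε c₁ g hε hε1 hg
  have hε2 : 0 < ε ^ 2 := by positivity
  have hε2' : ε ^ 2 ≤ 1 := by nlinarith
  have hcε : 0 < 1 - 3 / (8 * C) * ε ^ 2 := by
    have h1 : 3 / (8 * C) ≤ 3 / 8 := by
      apply div_le_div_of_nonneg_left (by norm_num) (by norm_num) (by linarith)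
    have h2 : 3 / (8 * C) * ε ^ 2 ≤ 3 / 8 * 1 :=
      mul_le_mul h1 hε2' hε2.le (by norm_num)
    linarith
  by_cases hG : nsqL g = ⊤
  · rw [hG, ENNReal.mul_top (by simpa using hcε)]
    exact le_top
  obtain ⟨hm, hle, hwin, -⟩ := hA ε g hε hε1 hg
  set h := avg ε g with hh
  have hkm := measurable_UR c₁ hm
  set k := UR c₁ h with hk
  obtain ⟨hm', hle', -, -⟩ := hA ε k hε hε1 hkm
  obtain ⟨hiso, hout⟩ := hI c₁ h hm
  have d1 := hC ε g (c₁ - 2) hε hε1 hg
  have d2 := hC ε k (-2) hε hε1 hkm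
  rw [show c₁ - 2 + 4 = c₁ + 2 by ring] at d1
  rw [← hh] at d1
  set W1 := ∫⁻ x in Set.Icc (c₁ - 2) (c₁ + 2), g x ^ 2 with hW1
  set W2 := ∫⁻ x in Set.Icc (-2 : ℝ) (-2 + 4), k x ^ 2 with hW2
  have hcov : nsqL k ≤ W2 + W1 := by
    calc nsqL k = ∫⁻ x in (Set.univ : Set ℝ), k x ^ 2 := by rw [Measure.restrict_univ]; rfl
      _ ≤ ∫⁻ x in Set.Icc (-2 : ℝ) (-2 + 4) ∪ {z : ℝ | 1 < |z|}, k x ^ 2 := by
          apply lintegral_mono_set
          intro x _
          by_cases hx : 1 < |x|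
          · exact Or.inr hx
          · left
            rw [not_lt, abs_le] at hx
            constructor <;> linarith [hx.1, hx.2]
      _ ≤ W2 + ∫⁻ x in {z : ℝ | 1 < |z|}, k x ^ 2 := lintegral_union_le _ _ _
      _ ≤ W2 + W1 := by
          gcongr
          exact hout.trans (hwin c₁)
  -- finiteness
  have fG : nsqL g < ⊤ := lt_top_iff_ne_top.2 hG
  have fH : nsqL h < ⊤ := hle.trans_lt fG
  have fk : nsqL k < ⊤ := by rw [hiso]; exact fH
  have fA : nsqL (avg ε k) < ⊤ := hle'.trans_lt fk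
  have fW1 : W1 < ⊤ := (setLIntegral_le_lintegral _ _).trans_lt fG
  have fW2 : W2 < ⊤ := (setLIntegral_le_lintegral _ _).trans_lt fk
  rw [hiso] at hcov hle' d2
  -- to the reals
  have hD0 : 0 ≤ C / ε ^ 2 := by positivity
  obtain ⟨G, hGe⟩ : ∃ G : NNReal, nsqL g = G := ⟨_, (ENNReal.coe_toNNReal fG.ne).symm⟩
  obtain ⟨H, hHe⟩ : ∃ G : NNReal, nsqL h = G := ⟨_, (ENNReal.coe_toNNReal fH.ne).symm⟩
  obtain ⟨A, hAe⟩ : ∃ G : NNReal, nsqL (avg ε k) = G := ⟨_, (ENNReal.coe_toNNReal fA.ne).symm⟩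
  obtain ⟨w1, hw1⟩ : ∃ G : NNReal, W1 = G := ⟨_, (ENNReal.coe_toNNReal fW1.ne).symm⟩
  obtain ⟨w2, hw2⟩ : ∃ G : NNReal, W2 = G := ⟨_, (ENNReal.coe_toNNReal fW2.ne).symm⟩
  rw [hGe, hHe, hw1] at d1
  rw [hHe, hAe, hw2] at d2
  rw [hHe, hw1, hw2] at hcov
  rw [hHe, hAe] at hle'
  rw [hGe, hAe]
  have e1 : (w1 : ℝ) + C / ε ^ 2 * H ≤ 1 / 8 * G + C / ε ^ 2 * G := by
    have := ENNReal.toReal_mono (by finiteness) d1
    rw [ENNReal.toReal_add (by finiteness) (by finiteness),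
      ENNReal.toReal_add (by finiteness) (by finiteness), ENNReal.toReal_mul, ENNReal.toReal_mul,
      ENNReal.toReal_mul, ENNReal.toReal_ofReal hD0, ENNReal.toReal_ofReal (by norm_num)] at this
    simpa using this
  have e2 : (w2 : ℝ) + C / ε ^ 2 * A ≤ 1 / 8 * H + C / ε ^ 2 * H := by
    have := ENNReal.toReal_mono (by finiteness) d2
    rw [ENNReal.toReal_add (by finiteness) (by finiteness),
      ENNReal.toReal_add (by finiteness) (by finiteness), ENNReal.toReal_mul, ENNReal.toReal_mul,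
      ENNReal.toReal_mul, ENNReal.toReal_ofReal hD0, ENNReal.toReal_ofReal (by norm_num)] at this
    simpa using this
  have e3 : (H : ℝ) ≤ w2 + w1 := by exact_mod_cast hcov
  have e4 : (A : ℝ) ≤ H := by exact_mod_cast hle'
  have hG0 : (0 : ℝ) ≤ G := G.2
  have hA0 : (0 : ℝ) ≤ A := A.2
  set D := C / ε ^ 2 with hDdef
  have hD1 : 1 ≤ D := by
    rw [hDdef, le_div_iff₀ hε2]
    linarith
  have e5 : (D + 7 / 8) * A ≤ (D + 1 / 8) * G := by nlinarith
  have e6 : (A : ℝ) ≤ (1 - 3 / (8 * C) * ε ^ 2) * G := by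
    have h1 : 3 / (8 * C) * ε ^ 2 = 3 / (8 * D) := by
      rw [hDdef]
      field_simp
    rw [h1]
    have h2 : (1 - 3 / (8 * D)) * (D + 7 / 8) ≥ D + 1 / 8 := by
      have : (1 - 3 / (8 * D)) * (D + 7 / 8) = D + 7 / 8 - 3 / 8 - 21 / (64 * D) := by
        field_simp
        ring
      rw [this]
      have : 21 / (64 * D) ≤ 21 / 64 := by
        apply div_le_div_of_nonneg_left (by norm_num) (by norm_num) (by linarith)
      linarith
    have h3 : (D + 7 / 8) * A ≤ (D + 7 / 8) * ((1 - 3 / (8 * D)) * G) := by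
      calc (D + 7 / 8) * (A : ℝ) ≤ (D + 1 / 8) * G := e5
        _ ≤ ((1 - 3 / (8 * D)) * (D + 7 / 8)) * G := by
            apply mul_le_mul_of_nonneg_right h2 hG0
        _ = _ := by ring
    exact le_of_mul_le_mul_left h3 (by linarith)
  calc (A : ℝ≥0∞) = ENNReal.ofReal A := by rw [ENNReal.ofReal_coe_nnreal]
    _ ≤ ENNReal.ofReal ((1 - 3 / (8 * C) * ε ^ 2) * G) := ENNReal.ofReal_le_ofReal e6
    _ = _ := by rw [ENNReal.ofReal_mul hcε.le, ENNReal.ofReal_coe_nnreal]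

end Pool.Agent.Run7.h189.PP
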