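import Pool.Agent.Run7.h189.PP.J

/-!
# TaskFE: the fixed energy estimate, from TaskJ
-/

set_option autoImplicit false

open scoped BigOperators ENNReal
open MeasureTheory Pool.Agent.H695R3.PP

namespace Pool.Agent.Run7.h189.PP

theorem resample' (i : ℤ) {Φ : (ℤ → ℝ) → ℝ≥0∞} (hΦ : Measurable Φ) :
    ∫⁻ x, Φ x ∂PZ = ∫⁻ x, ∫⁻ s, Φ (Function.update x i s) ∂U ∂PZ := by
  have h := Pool.Agent.H853R3.PP.Resample.taskResample ℤ (fun _ => ℝ) (fun _ => U) i
  have hm := Pool.Agent.H853R3.PP.Resample.measurable_upd (X := fun _ : ℤ => ℝ) i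
  have h1 : PZ = Measure.map (fun p : (ℤ → ℝ) × ℝ => Function.update p.1 i p.2)
      (PZ.prod U) := h.symm
  conv_lhs => rw [h1]
  rw [lintegral_map hΦ hm]
  exact lintegral_prod _ (hΦ.comp hm).aemeasurable

theorem resample_set (i : ℤ) {S : Set (ℤ → ℝ)} (hS : MeasurableSet S) :
    PZ S = ∫⁻ x, U {s | Function.update x i s ∈ S} ∂PZ := by
  rw [← lintegral_indicator_one hS, resample' i (measurable_one.indicator hS)]
  refine lintegral_congr fun x => ?_
  have hm : Measurable (fun s : ℝ => Function.update x i s) := measurable_update x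
  change _ = U ((fun s : ℝ => Function.update x i s) ⁻¹' S)
  rw [← lintegral_indicator_one (hm hS)]
  rfl

theorem rsol_congr {V V' : ℤ → ℝ} (E : ℝ) (b : ℤ) (j : ℕ)
    (h : ∀ n, b - j < n → V n = V' n) : rsol V E b j = rsol V' E b j := by
  induction j with
  | zero => rfl
  | succ j ih =>
    rw [rsol, rsol, ih (fun n hn => h n (by push_cast; omega)),
      h (b - j) (by push_cast; omega)]

theorem rs_ne_zero (V : ℤ → ℝ) (E : ℝ) (b : ℤ) (j : ℕ) (v : ℝ × ℝ) (hv : v ≠ 0) :
    rs V E b j v ≠ 0 := by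
  induction j with
  | zero => exact hv
  | succ j ih =>
    intro h
    apply ih
    rw [rs, stp, Prod.mk_eq_zero] at h
    obtain ⟨h1, h2⟩ := h
    rw [h2] at h1
    ext
    · exact h2
    · simp at h1
      exact h1

theorem len_pos {v : ℝ × ℝ} (hv : v ≠ 0) : 0 < len v := by
  unfold len
  apply Real.sqrt_pos.2
  by_contra h
  apply hv
  have h1 : v.1 ^ 2 + v.2 ^ 2 ≤ 0 := not_lt.1 h
  ext
  · have : v.1 ^ 2 = 0 := by nlinarith [sq_nonneg v.1, sq_nonneg v.2]
    simpa using this
  · have : v.2 ^ 2 = 0 := by nlinarith [sq_nonneg v.1, sq_nonneg v.2]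
    simpa using this

theorem abs_fst_le_len (v : ℝ × ℝ) : |v.1| ≤ len v := by
  unfold len
  apply Real.abs_le_sqrt
  nlinarith [sq_nonneg v.2]

theorem len_le (v : ℝ × ℝ) : len v ≤ |v.1| + |v.2| := by
  unfold len
  rw [Real.sqrt_le_left (by positivity)]
  nlinarith [sq_abs v.1, sq_abs v.2, abs_nonneg v.1, abs_nonneg v.2,
    mul_nonneg (abs_nonneg v.1) (abs_nonneg v.2)]

theorem U_bound (A ε R t : ℝ) (v : ℝ × ℝ) (hv : 0 < len v) (hε : 0 < ε) (hε1 : ε ≤ 1)
    (hR : 1 ≤ R) (hA : |A| ≤ 2 * R) (ht : 0 < t) :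
    U {s | |(A - ε * s) * v.1 - v.2| ≤ t} ≤
      ENNReal.ofReal (8 * (R + 1) * t / ε) * ENNReal.ofReal (1 / len v) := by
  have hR1 : 0 < 8 * (R + 1) := by linarith
  rw [← ENNReal.ofReal_mul (by positivity)]
  by_cases hc : len v ≤ 8 * (R + 1) * |v.1|
  · -- the first component is large
    have hp : 0 < |v.1| := by
      by_contra h
      have : |v.1| = 0 := le_antisymm (not_lt.1 h) (abs_nonneg _)
      rw [this] at hc
      linarith
    have hp0 : v.1 ≠ 0 := abs_pos.1 hp
    have hsub : {s | |(A - ε * s) * v.1 - v.2| ≤ t} ⊆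
        Set.Icc ((A - v.2 / v.1) / ε - t / (ε * |v.1|))
          ((A - v.2 / v.1) / ε + t / (ε * |v.1|)) := by
      intro s hs
      change |(A - ε * s) * v.1 - v.2| ≤ t at hs
      have h1 : (A - ε * s) * v.1 - v.2 = -(ε * v.1) * (s - (A - v.2 / v.1) / ε) := by
        field_simp
        ring
      rw [h1, abs_mul, abs_neg, abs_mul, abs_of_pos hε] at hs
      have h2 : |s - (A - v.2 / v.1) / ε| ≤ t / (ε * |v.1|) := by
        rw [le_div_iff₀ (by positivity)]
        linarith
      rw [abs_le] at h2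
      constructor <;> linarith [h2.1, h2.2]
    calc U {s | |(A - ε * s) * v.1 - v.2| ≤ t} ≤ U (Set.Icc _ _) := measure_mono hsub
      _ ≤ ENNReal.ofReal (1 / 2) * volume (Set.Icc ((A - v.2 / v.1) / ε - t / (ε * |v.1|))
          ((A - v.2 / v.1) / ε + t / (ε * |v.1|))) := by
          unfold U
          rw [Measure.smul_apply, smul_eq_mul]
          gcongr
          exact Measure.restrict_le_self
      _ = ENNReal.ofReal (t / (ε * |v.1|)) := by
          rw [Real.volume_Icc, ← ENNReal.ofReal_mul (by norm_num)]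
          congr 1
          ring
      _ ≤ _ := by
          apply ENNReal.ofReal_le_ofReal
          rw [div_mul_div_comm, mul_one, div_le_div_iff₀ (by positivity) (by positivity)]
          have : t * ε * len v ≤ t * ε * (8 * (R + 1) * |v.1|) := by gcongr
          nlinarith
  · rw [not_le] at hc
    by_cases h34 : 3 / 4 * len v ≤ t
    · calc U {s | |(A - ε * s) * v.1 - v.2| ≤ t} ≤ 1 := prob_le_one
        _ = ENNReal.ofReal 1 := by simp
        _ ≤ _ := by
          apply ENNReal.ofReal_le_ofReal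
          rw [div_mul_div_comm, mul_one, le_div_iff₀ (by positivity)]
          have h1 : ε * len v ≤ len v := by nlinarith
          nlinarith
    · rw [not_le] at h34
      have h0 : U {s | |(A - ε * s) * v.1 - v.2| ≤ t} = 0 := by
        unfold U
        rw [Measure.smul_apply, smul_eq_mul]
        have : volume.restrict (Set.Icc (-1 : ℝ) 1) {s | |(A - ε * s) * v.1 - v.2| ≤ t} = 0 := by
          rw [Measure.restrict_apply']
          · convert measure_empty (μ := (volume : Measure ℝ))
            rw [Set.eq_empty_iff_forall_notMem]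
            rintro s ⟨hs, hs1⟩
            change |(A - ε * s) * v.1 - v.2| ≤ t at hs
            have h1 : |A - ε * s| ≤ 2 * R + 1 := by
              have h2 : |ε * s| ≤ 1 := by
                rw [abs_mul, abs_of_pos hε]
                have : |s| ≤ 1 := abs_le.2 ⟨hs1.1, hs1.2⟩
                nlinarith [abs_nonneg s]
              calc |A - ε * s| ≤ |A| + |ε * s| := abs_sub _ _
                _ ≤ _ := by linarith
            have h3 : |v.2| - (2 * R + 1) * |v.1| ≤ |(A - ε * s) * v.1 - v.2| := by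
              have h4 : |v.2| ≤ |(A - ε * s) * v.1 - v.2| + |(A - ε * s) * v.1| := by
                have := abs_sub ((A - ε * s) * v.1) ((A - ε * s) * v.1 - v.2)
                rw [sub_sub_cancel] at this
                linarith
              rw [abs_mul] at h4
              have h5 : |A - ε * s| * |v.1| ≤ (2 * R + 1) * |v.1| :=
                mul_le_mul_of_nonneg_right h1 (abs_nonneg _)
              linarith
            have h6 := len_le v
            nlinarith [abs_nonneg v.1]
          · exact measurableSet_Icc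
        rw [this, mul_zero]
      rw [h0]
      exact zero_le

theorem t_FE (hJ : TaskJ) : TaskFE := by
  obtain ⟨c, C, hc, hc2, hC0, hJ⟩ := hJ
  refine ⟨c, 32 * C, hc, hc2, by positivity, ?_⟩
  intro ε R E t W L hε hε1 hR hE hW ht hL
  obtain ⟨L', rfl⟩ : ∃ L', L = L' + 1 := ⟨L - 1, by omega⟩
  have hε2 : 0 < ε ^ 2 := by positivity
  have hε2' : ε ^ 2 ≤ 1 := by nlinarith
  have hρ : 1 / 2 ≤ 1 - c * ε ^ 2 := by nlinarith
  set b : ℤ := ((L' + 1 : ℕ) : ℤ) with hb
  have hfst : ∀ x : ℤ → ℝ, (rsol (fun n => W n + ε * x n) E b (L' + 1)).1 =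
      (E - (W 1 + ε * x 1)) * (rs (fun n => W n + ε * x n) E b L' (1, 0)).1 -
        (rs (fun n => W n + ε * x n) E b L' (1, 0)).2 := by
    intro x
    rw [rsol_eq, rs, stp]
    have : b - (L' : ℤ) = 1 := by rw [hb]; push_cast; ring
    rw [this]
  have hmv : Measurable (fun x : ℤ → ℝ => rs (fun n => W n + ε * x n) E b L' (1, 0)) :=
    (meas_rs W ε E b L').comp (measurable_id.prodMk measurable_const)
  have hm1 : Measurable (fun x : ℤ → ℝ => (rsol (fun n => W n + ε * x n) E b (L' + 1)).1) := by
    simp only [hfst]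
    exact ((measurable_const.sub (measurable_const.add
      (measurable_const.mul (measurable_pi_apply _)))).mul hmv.fst).sub hmv.snd
  have hS : MeasurableSet {x : ℤ → ℝ | |(rsol (fun n => W n + ε * x n) E b (L' + 1)).1| ≤ t} :=
    measurableSet_le (measurable_norm.comp hm1) measurable_const
  rw [resample_set 1 hS]
  have hin : ∀ x : ℤ → ℝ, U {s | Function.update x 1 s ∈
      {x : ℤ → ℝ | |(rsol (fun n => W n + ε * x n) E b (L' + 1)).1| ≤ t}} ≤
      ENNReal.ofReal (8 * (R + 1) * t / ε) *
        ENNReal.ofReal (1 / rlen (fun n => W n + ε * x n) E b L') := by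
    intro x
    have hrl : rlen (fun n => W n + ε * x n) E b L' =
        len (rs (fun n => W n + ε * x n) E b L' (1, 0)) := by
      unfold rlen len
      rw [rsol_eq]
    rw [hrl]
    have hv : 0 < len (rs (fun n => W n + ε * x n) E b L' (1, 0)) :=
      len_pos (rs_ne_zero _ _ _ _ _ (by simp))
    refine le_trans (le_of_eq ?_) (U_bound (E - W 1) ε R t _ hv hε hε1 hR ?_ ht)
    · congr 1
      ext s
      change |(rsol (fun n => W n + ε * Function.update x 1 s n) E b (L' + 1)).1| ≤ t ↔ _
      rw [hfst]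
      have h1 : rs (fun n => W n + ε * Function.update x 1 s n) E b L' (1, 0) =
          rs (fun n => W n + ε * x n) E b L' (1, 0) := by
        rw [← rsol_eq, ← rsol_eq]
        apply rsol_congr
        intro n hn
        rw [Function.update_of_ne]
        rw [hb] at hn
        push_cast at hn
        omega
      rw [h1, Function.update_self]
      change _ ↔ |(E - W 1 - ε * s) * _ - _| ≤ t
      rw [show E - (W 1 + ε * s) = E - W 1 - ε * s by ring]
    · calc |E - W 1| ≤ |E| + |W 1| := abs_sub _ _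
        _ ≤ 2 * R := by linarith [hW 1]
  calc ∫⁻ x, U {s | Function.update x 1 s ∈
        {x : ℤ → ℝ | |(rsol (fun n => W n + ε * x n) E b (L' + 1)).1| ≤ t}} ∂PZ
      ≤ ∫⁻ x, ENNReal.ofReal (8 * (R + 1) * t / ε) *
        ENNReal.ofReal (1 / rlen (fun n => W n + ε * x n) E b L') ∂PZ := lintegral_mono hin
    _ = ENNReal.ofReal (8 * (R + 1) * t / ε) *
        ∫⁻ x, ENNReal.ofReal (1 / rlen (fun n => W n + ε * x n) E b L') ∂PZ :=
        lintegral_const_mul' _ _ ENNReal.ofReal_ne_top
    _ ≤ ENNReal.ofReal (8 * (R + 1) * t / ε) *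
        ENNReal.ofReal (C / ε * (1 - c * ε ^ 2) ^ L') := by
        gcongr
        exact hJ ε E W b L' hε hε1
    _ = ENNReal.ofReal (8 * (R + 1) * t / ε * (C / ε * (1 - c * ε ^ 2) ^ L')) :=
        (ENNReal.ofReal_mul (by positivity)).symm
    _ ≤ _ := by
        apply ENNReal.ofReal_le_ofReal
        have h1 : (1 - c * ε ^ 2) ^ L' ≤ 2 * (1 - c * ε ^ 2) ^ (L' + 1) := by
          rw [pow_succ (1 - c * ε ^ 2) L']
          have : 0 ≤ (1 - c * ε ^ 2) ^ L' := pow_nonneg (by linarith) _
          nlinarith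
        have h2 : 8 * (R + 1) * t / ε ≤ 16 * R * t / ε := by
          apply div_le_div_of_nonneg_right _ hε.le
          nlinarith
        calc 8 * (R + 1) * t / ε * (C / ε * (1 - c * ε ^ 2) ^ L')
            ≤ 16 * R * t / ε * (C / ε * (2 * (1 - c * ε ^ 2) ^ (L' + 1))) := by
              apply mul_le_mul h2 _ _ (by positivity)
              · exact mul_le_mul_of_nonneg_left h1 (by positivity)
              · exact mul_nonneg (by positivity) (pow_nonneg (by linarith) _)
          _ = 32 * C * R / ε ^ 2 * t * (1 - c * ε ^ 2) ^ (L' + 1) := by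
              field_simp
              ring

end Pool.Agent.Run7.h189.PP
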