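import Pool.Agent.Run7.h189.PP.FE

/-!
# TaskG1: the probability of the first bad event, from TaskSAP, TaskFE and TaskMeas
-/

set_option autoImplicit false

open scoped BigOperators ENNReal
open MeasureTheory Pool.Agent.H695R3.PP

namespace Pool.Agent.Run7.h189.PP

theorem eig_rsol {V : ℤ → ℝ} {a b : ℤ} {E : ℝ} {ψ : ℤ → ℝ} (h : IsEig V a b E ψ) (j : ℕ)
    (hj : (j : ℤ) ≤ b - a + 1) :
    ψ (b - j) = ψ b * (rsol V E b j).1 ∧ ψ (b - j + 1) = ψ b * (rsol V E b j).2 := by
  induction j with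
  | zero =>
    simp only [rsol]
    refine ⟨by simp, ?_⟩
    rw [mul_zero]
    apply h.1
    right
    push_cast
    omega
  | succ j ih =>
    obtain ⟨h1, h2⟩ := ih (by push_cast at hj; omega)
    have h3 := h.2.2 (b - j) (by push_cast at hj; omega) (by omega)
    simp only [rsol]
    constructor
    · have h4 : b - ((j + 1 : ℕ) : ℤ) = b - j - 1 := by push_cast; ring
      rw [h4]
      have h5 : ψ (b - j - 1) = E * ψ (b - j) - V (b - j) * ψ (b - j) - ψ (b - j + 1) := by
        linarith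
      rw [h5, h1, h2]
      ring
    · have h4 : b - ((j + 1 : ℕ) : ℤ) + 1 = b - j := by push_cast; ring
      rw [h4, h1]

theorem eig_le_one {V : ℤ → ℝ} {a b : ℤ} {E : ℝ} {ψ : ℤ → ℝ} (h : IsEig V a b E ψ) (n : ℤ) :
    |ψ n| ≤ 1 := by
  by_cases hn : n ∈ Finset.Icc a b
  · have h1 : ψ n ^ 2 ≤ nsq a b ψ := by
      unfold nsq
      exact Finset.single_le_sum (f := fun n => ψ n ^ 2) (fun i _ => sq_nonneg _) hn
    rw [h.2.1] at h1
    rw [← sq_abs] at h1
    nlinarith [abs_nonneg (ψ n)]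
  · rw [h.1 n (by rw [Finset.mem_Icc] at hn; omega)]
    simp

theorem eig_bound {V : ℤ → ℝ} {a b : ℤ} {E R : ℝ} {ψ : ℤ → ℝ} (h : IsEig V a b E ψ)
    (hV : ∀ n, |V n| ≤ R) : |E| ≤ R + 2 := by
  have hne : (Finset.Icc a b).Nonempty := by
    by_contra h0
    rw [Finset.not_nonempty_iff_eq_empty] at h0
    have := h.2.1
    unfold nsq at this
    rw [h0] at this
    simp at this
  obtain ⟨m, hm, hmax⟩ := Finset.exists_max_image (Finset.Icc a b) (fun n => |ψ n|) hne
  have hall : ∀ n, |ψ n| ≤ |ψ m| := by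
    intro n
    by_cases hn : n ∈ Finset.Icc a b
    · exact hmax n hn
    · rw [h.1 n (by rw [Finset.mem_Icc] at hn; omega)]
      simp
  have hpos : 0 < |ψ m| := by
    by_contra h0
    have h1 : ∀ n, ψ n = 0 := fun n =>
      abs_eq_zero.1 (le_antisymm ((hall n).trans (not_lt.1 h0)) (abs_nonneg _))
    have := h.2.1
    unfold nsq at this
    simp [h1] at this
  rw [Finset.mem_Icc] at hm
  have h2 := h.2.2 m hm.1 hm.2
  have h3 : |E| * |ψ m| ≤ (R + 2) * |ψ m| := by
    rw [← abs_mul, ← h2]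
    calc |ψ (m + 1) + ψ (m - 1) + V m * ψ m| ≤ |ψ (m + 1)| + |ψ (m - 1)| + |V m * ψ m| :=
          abs_add_three _ _ _
      _ ≤ |ψ m| + |ψ m| + R * |ψ m| := by
          rw [abs_mul]
          have := mul_le_mul_of_nonneg_right (hV m) (abs_nonneg (ψ m))
          linarith [hall (m + 1), hall (m - 1)]
      _ = _ := by ring
  exact le_of_mul_le_mul_right h3 hpos

theorem eig_reflect {V : ℤ → ℝ} {L : ℤ} {E : ℝ} {ψ : ℤ → ℝ} (h : IsEig V (-L) L E ψ) :
    IsEig (fun n => V (-n)) (-L) L E (fun n => ψ (-n)) := by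
  refine ⟨fun n hn => h.1 _ (by omega), ?_, ?_⟩
  · rw [← h.2.1]
    unfold nsq
    refine Finset.sum_bij' (fun n _ => -n) (fun n _ => -n) ?_ ?_ ?_ ?_ ?_
    · intro n hn; rw [Finset.mem_Icc] at hn ⊢; omega
    · intro n hn; rw [Finset.mem_Icc] at hn ⊢; omega
    · intro n _; ring
    · intro n _; ring
    · intro n _; rfl
  · intro n h1 h2
    have := h.2.2 (-n) (by omega) (by omega)
    change ψ (-(n + 1)) + ψ (-(n - 1)) + V (-n) * ψ (-n) = E * ψ (-n)
    rw [← this, show -(n + 1) = -n - 1 by ring, show -(n - 1) = -n + 1 by ring]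
    ring

/-- the energies for which the solution from the right end is small at zero -/
def AA (W : ℤ → ℝ) (ε R t : ℝ) (L : ℕ) (x : ℤ → ℝ) : Set ℝ :=
  {E | |E| ≤ R ∧ |(rsol (fun n => W n + ε * x n) E L L).1| ≤ t}

theorem meas_rsol (W : ℤ → ℝ) (ε : ℝ) (b : ℤ) (j : ℕ) :
    Measurable (fun p : (ℤ → ℝ) × ℝ => rsol (fun n => W n + ε * p.1 n) p.2 b j) := by
  induction j with
  | zero => exact measurable_const
  | succ j ih =>
    simp only [rsol]
    have h1 : Measurable (fun p : (ℤ → ℝ) × ℝ => p.1 (b - j)) :=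
      (measurable_pi_apply _).comp measurable_fst
    exact (((measurable_snd.sub (measurable_const.add (measurable_const.mul h1))).mul
      ih.fst).sub ih.snd).prodMk ih.fst

theorem meas_AA (W : ℤ → ℝ) (ε R t : ℝ) (L : ℕ) :
    MeasurableSet {p : (ℤ → ℝ) × ℝ | p.2 ∈ AA W ε R t L p.1} := by
  unfold AA
  exact (measurableSet_le (measurable_norm.comp measurable_snd) measurable_const).inter
    (measurableSet_le (measurable_norm.comp (meas_rsol W ε L L).fst) measurable_const)

theorem meas_vol_AA (W : ℤ → ℝ) (ε R t : ℝ) (L : ℕ) :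
    Measurable (fun x => volume (AA W ε R t L x)) :=
  measurable_measure_prodMk_left (meas_AA W ε R t L)

theorem lint_AA (W : ℤ → ℝ) (ε R t : ℝ) (L : ℕ) (K : ℝ≥0∞)
    (hK : ∀ E, |E| ≤ R → PZ {x | |(rsol (fun n => W n + ε * x n) E L L).1| ≤ t} ≤ K) :
    ∫⁻ x, volume (AA W ε R t L x) ∂PZ ≤ K * ENNReal.ofReal (2 * R) := by
  have h1 : ∫⁻ x, volume (AA W ε R t L x) ∂PZ =
      (PZ.prod volume) {p : (ℤ → ℝ) × ℝ | p.2 ∈ AA W ε R t L p.1} := by
    rw [Measure.prod_apply (meas_AA W ε R t L)]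
    rfl
  rw [h1, Measure.prod_apply_symm (meas_AA W ε R t L)]
  calc ∫⁻ E, PZ ((fun x => (x, E)) ⁻¹' {p : (ℤ → ℝ) × ℝ | p.2 ∈ AA W ε R t L p.1})
      ≤ ∫⁻ E, (Set.Icc (-R) R).indicator (fun _ => K) E := by
        refine lintegral_mono fun E => ?_
        by_cases hE : E ∈ Set.Icc (-R) R
        · rw [Set.indicator_of_mem hE]
          refine le_trans (measure_mono ?_) (hK E (abs_le.2 ⟨hE.1, hE.2⟩))
          intro x hx
          exact hx.2
        · rw [Set.indicator_of_notMem hE]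
          have : ((fun x => (x, E)) ⁻¹' {p : (ℤ → ℝ) × ℝ | p.2 ∈ AA W ε R t L p.1}) = ∅ := by
            rw [Set.eq_empty_iff_forall_notMem]
            intro x hx
            apply hE
            exact abs_le.1 hx.1
          rw [this, measure_empty]
    _ = K * ENNReal.ofReal (2 * R) := by
        rw [lintegral_indicator measurableSet_Icc, setLIntegral_const, Real.volume_Icc]
        congr 2
        ring

theorem PZ_reflect : Measure.map (fun (x : ℤ → ℝ) n => x (-n)) PZ = PZ := by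
  have hm : Measurable (fun (x : ℤ → ℝ) (n : ℤ) => x (-n)) :=
    measurable_pi_lambda _ fun n => measurable_pi_apply _
  unfold PZ
  refine Measure.eq_infinitePi _ fun s t ht => ?_
  have hpi : MeasurableSet (Set.pi (s : Set ℤ) t) :=
    MeasurableSet.pi s.countable_toSet fun j _ => ht j
  rw [Measure.map_apply hm hpi]
  have key : (fun (x : ℤ → ℝ) (n : ℤ) => x (-n)) ⁻¹' (Set.pi (s : Set ℤ) t) =
      Set.pi ((s.image (fun n => -n) : Finset ℤ) : Set ℤ) (fun n => t (-n)) := by
    ext x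
    simp only [Set.mem_preimage, Set.mem_pi, Finset.mem_coe, Finset.mem_image]
    constructor
    · rintro h _ ⟨n, hn, rfl⟩
      rw [neg_neg]
      exact h n hn
    · intro h n hn
      have := h (-n) ⟨n, hn, rfl⟩
      rwa [neg_neg] at this
  rw [key, Measure.infinitePi_pi _ (fun j _ => ht _),
    Finset.prod_image (fun a _ b _ h => neg_injective h)]
  simp

theorem PZ_ae_le : ∀ᵐ x ∂PZ, ∀ n : ℤ, |x n| ≤ 1 := by
  rw [ae_all_iff]
  intro n
  have h1 : U {s : ℝ | ¬ |s| ≤ 1} = 0 := by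
    unfold U
    rw [Measure.smul_apply, smul_eq_mul]
    have : volume.restrict (Set.Icc (-1 : ℝ) 1) {s | ¬ |s| ≤ 1} = 0 := by
      rw [Measure.restrict_apply' measurableSet_Icc]
      convert measure_empty (μ := (volume : Measure ℝ))
      rw [Set.eq_empty_iff_forall_notMem]
      rintro s ⟨hs, hs1⟩
      exact hs (abs_le.2 ⟨hs1.1, hs1.2⟩)
    rw [this, mul_zero]
  have h2 : MeasurableSet {s : ℝ | ¬ |s| ≤ 1} :=
    (measurableSet_le measurable_norm measurable_const).compl
  have h3 := (measurePreserving_eval_infinitePi (fun _ : ℤ => U) n).measure_preimage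
    h2.nullMeasurableSet
  rw [ae_iff]
  exact h3.trans h1

theorem t_G1 (hSAP : TaskSAP) (hFE : TaskFE) (hM : TaskMeas) : TaskG1 := by
  obtain ⟨c, C, hc, hc2, hC0, hFE⟩ := hFE
  refine ⟨c, 32 * C, hc, hc2, by positivity, ?_⟩
  intro ε R a τ W L hε hε1 hR hW ha hτ hL
  have hε2' : ε ^ 2 ≤ 1 := by nlinarith
  have hρ : 0 ≤ 1 - c * ε ^ 2 := by nlinarith
  set B : Set (ℤ → ℝ) := {x | Bad1 L a τ (fun n => W n + ε * x n)} with hB
  set B2 : Set (ℤ → ℝ) := {x | ∀ n : ℤ, |x n| ≤ 1} with hB2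
  have hmB : MeasurableSet B := by
    have h1 : Measurable (fun (x : ℤ → ℝ) (n : ℤ) => W n + ε * x n) :=
      measurable_pi_lambda _ fun n => measurable_const.add
        (measurable_const.mul (measurable_pi_apply n))
    exact h1 (hM.1 L a τ)
  have hmB2 : MeasurableSet B2 := by
    have : B2 = ⋂ n : ℤ, {x : ℤ → ℝ | |x n| ≤ 1} := by
      ext x
      simp [hB2]
    rw [this]
    exact MeasurableSet.iInter fun n =>
      measurableSet_le (measurable_norm.comp (measurable_pi_apply n)) measurable_const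
  have h1 : PZ B ≤ PZ (B ∩ B2) := by
    apply measure_mono_ae
    filter_upwards [PZ_ae_le] with x hx hxB
    exact ⟨hxB, hx⟩
  refine h1.trans ?_
  set A : (ℤ → ℝ) → Set ℝ := fun x => AA W ε (R + 3) (1 / τ) L x ∪
    AA (fun n => W (-n)) ε (R + 3) (1 / τ) L (fun n => x (-n)) with hA
  have hAupd : ∀ x s, A (Function.update x 0 s) = A x := by
    intro x s
    simp only [hA, AA]
    have e1 : ∀ E : ℝ, rsol (fun n => W n + ε * Function.update x 0 s n) E L L =
        rsol (fun n => W n + ε * x n) E L L := by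
      intro E
      apply rsol_congr
      intro n hn
      rw [Function.update_of_ne (by omega)]
    have e2 : ∀ E : ℝ, rsol (fun n => W (-n) + ε * Function.update x 0 s (-n)) E L L =
        rsol (fun n => W (-n) + ε * x (-n)) E L L := by
      intro E
      apply rsol_congr
      intro n hn
      rw [Function.update_of_ne (by omega)]
    simp only [e1, e2]
  have hSub : ∀ x ∈ B ∩ B2, ∃ E ∈ A x, ∃ ψ,
      IsEig (fun n => W n + ε * x n) (-(L : ℤ)) L E ψ ∧ a ^ 2 ≤ ψ 0 ^ 2 := by
    rintro x ⟨⟨E, ψ, hE, h0, h2⟩, hx⟩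
    have hV : ∀ n, |W n + ε * x n| ≤ R + 1 := by
      intro n
      have h3 : |ε * x n| ≤ 1 := by
        rw [abs_mul, abs_of_pos hε]
        have := hx n
        nlinarith [abs_nonneg (x n)]
      calc |W n + ε * x n| ≤ |W n| + |ε * x n| := abs_add_le _ _
        _ ≤ R + 1 := by linarith [hW n]
    have hEb : |E| ≤ R + 3 := by
      have := eig_bound hE hV
      linarith
    have key : ∀ (V φ : ℤ → ℝ), IsEig V (-(L : ℤ)) L E φ → τ ≤ |φ L| →
        |(rsol V E L L).1| ≤ 1 / τ := by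
      intro V φ hφ hτφ
      obtain ⟨h4, -⟩ := eig_rsol hφ L (by omega)
      rw [sub_self] at h4
      have h5 : |φ 0| = |φ L| * |(rsol V E L L).1| := by rw [h4, abs_mul]
      have h6 := eig_le_one hφ 0
      rw [le_div_iff₀ hτ]
      calc |(rsol V E L L).1| * τ ≤ |(rsol V E L L).1| * |φ L| :=
            mul_le_mul_of_nonneg_left hτφ (abs_nonneg _)
        _ = |φ 0| := by rw [h5]; ring
        _ ≤ 1 := h6
    refine ⟨E, ?_, ψ, hE, ?_⟩
    · rcases h2 with h2 | h2
      · left
        exact ⟨hEb, key _ _ hE h2⟩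
      · right
        refine ⟨hEb, ?_⟩
        exact key _ _ (eig_reflect hE) h2
    · rw [← sq_abs (ψ 0)]
      exact pow_le_pow_left₀ ha.le h0 2
  have h2 := hSAP W ε (a ^ 2) (-(L : ℤ)) L 0 A (B ∩ B2) hε (by positivity)
    (hmB.inter hmB2) hAupd hSub
  refine h2.trans ?_
  set K : ℝ := C * (R + 3) / ε ^ 2 * (1 / τ) * (1 - c * ε ^ 2) ^ L with hK
  have hK0 : 0 ≤ K := by
    rw [hK]
    exact mul_nonneg (by positivity) (pow_nonneg hρ _)
  have i1 : ∫⁻ x, volume (AA W ε (R + 3) (1 / τ) L x) ∂PZ ≤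
      ENNReal.ofReal K * ENNReal.ofReal (2 * (R + 3)) := by
    apply lint_AA
    intro E hE
    exact hFE ε (R + 3) E (1 / τ) W L hε hε1 (by linarith) hE
      (fun n => (hW n).trans (by linarith)) (by positivity) hL
  have i2 : ∫⁻ x, volume (AA (fun n => W (-n)) ε (R + 3) (1 / τ) L (fun n => x (-n))) ∂PZ ≤
      ENNReal.ofReal K * ENNReal.ofReal (2 * (R + 3)) := by
    have hm : Measurable (fun (x : ℤ → ℝ) (n : ℤ) => x (-n)) :=
      measurable_pi_lambda _ fun n => measurable_pi_apply _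
    have := lintegral_map (μ := PZ)
      (meas_vol_AA (fun n => W (-n)) ε (R + 3) (1 / τ) L) hm
    rw [← this, PZ_reflect]
    apply lint_AA
    intro E hE
    exact hFE ε (R + 3) E (1 / τ) (fun n => W (-n)) L hε hε1 (by linarith) hE
      (fun n => (hW (-n)).trans (by linarith)) (by positivity) hL
  calc ∫⁻ x, ENNReal.ofReal (1 / (2 * ε * a ^ 2)) * volume (A x) ∂PZ
      ≤ ∫⁻ x, ENNReal.ofReal (1 / (2 * ε * a ^ 2)) *
        (volume (AA W ε (R + 3) (1 / τ) L x) +
          volume (AA (fun n => W (-n)) ε (R + 3) (1 / τ) L (fun n => x (-n)))) ∂PZ := by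
        refine lintegral_mono fun x => ?_
        gcongr
        exact measure_union_le _ _
    _ = ENNReal.ofReal (1 / (2 * ε * a ^ 2)) *
        (∫⁻ x, volume (AA W ε (R + 3) (1 / τ) L x) ∂PZ +
          ∫⁻ x, volume (AA (fun n => W (-n)) ε (R + 3) (1 / τ) L (fun n => x (-n))) ∂PZ) := by
        rw [lintegral_const_mul' _ _ ENNReal.ofReal_ne_top,
          lintegral_add_left (meas_vol_AA W ε (R + 3) (1 / τ) L)]
    _ ≤ ENNReal.ofReal (1 / (2 * ε * a ^ 2)) *
        (ENNReal.ofReal K * ENNReal.ofReal (2 * (R + 3)) +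
          ENNReal.ofReal K * ENNReal.ofReal (2 * (R + 3))) := by gcongr
    _ = ENNReal.ofReal (1 / (2 * ε * a ^ 2) * (K * (2 * (R + 3)) + K * (2 * (R + 3)))) := by
        rw [← ENNReal.ofReal_mul hK0, ← ENNReal.ofReal_add (by positivity) (by positivity),
          ← ENNReal.ofReal_mul (by positivity)]
    _ ≤ _ := by
        apply ENNReal.ofReal_le_ofReal
        have h3 : 1 / (2 * ε * a ^ 2) * (K * (2 * (R + 3)) + K * (2 * (R + 3))) =
            2 * C * (R + 3) ^ 2 / (ε ^ 3 * a ^ 2 * τ) * (1 - c * ε ^ 2) ^ L := by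
          rw [hK]
          field_simp
          ring
        rw [h3]
        apply mul_le_mul_of_nonneg_right _ (pow_nonneg hρ _)
        apply div_le_div_of_nonneg_right _ (by positivity)
        have h4 : (R + 3) ^ 2 ≤ (4 * R) ^ 2 := pow_le_pow_left₀ (by linarith) (by linarith) 2
        nlinarith

end Pool.Agent.Run7.h189.PP
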