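import Pool.Agent.H853R3.PP.TaskResample

/-!
# TaskJ: the first negative moment of the length of the solution, from TaskAvg, TaskIso, TaskContr
-/

set_option autoImplicit false

open scoped BigOperators ENNReal
open MeasureTheory Pool.Agent.H695R3.PP

namespace Pool.Agent.Run7.h189.PP

/-- one step of the transfer -/
noncomputable def stp (E w : ℝ) (v : ℝ × ℝ) : ℝ × ℝ := ((E - w) * v.1 - v.2, v.1)

/-- `j` steps, the first one uses the site `b` -/
noncomputable def rs (V : ℤ → ℝ) (E : ℝ) (b : ℤ) : ℕ → ℝ × ℝ → ℝ × ℝ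
  | 0, v => v
  | (j + 1), v => stp E (V (b - j)) (rs V E b j v)

theorem rsol_eq (V : ℤ → ℝ) (E : ℝ) (b : ℤ) (j : ℕ) : rsol V E b j = rs V E b j (1, 0) := by
  induction j with
  | zero => rfl
  | succ j ih => simp only [rsol, rs, stp, ih]

theorem rs_succ' (V : ℤ → ℝ) (E : ℝ) (b : ℤ) (j : ℕ) (v : ℝ × ℝ) :
    rs V E b (j + 1) v = rs V E (b - 1) j (stp E (V b) v) := by
  induction j with
  | zero => simp [rs]
  | succ j ih =>
    rw [rs, ih, rs]
    congr 2
    push_cast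
    ring_nf

theorem rs_congr {V V' : ℤ → ℝ} (E : ℝ) (b : ℤ) (j : ℕ) (v : ℝ × ℝ)
    (h : ∀ n, n ≤ b → V n = V' n) : rs V E b j v = rs V' E b j v := by
  induction j with
  | zero => rfl
  | succ j ih =>
    rw [rs, rs, ih, h _ (by omega)]

theorem rs_smul (V : ℤ → ℝ) (E : ℝ) (b : ℤ) (j : ℕ) (a : ℝ) (v : ℝ × ℝ) :
    rs V E b j (a • v) = a • rs V E b j v := by
  induction j with
  | zero => rfl
  | succ j ih =>
    rw [rs, rs, ih]
    ext <;> simp [stp]
    ring

/-- the length of a vector -/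
noncomputable def len (v : ℝ × ℝ) : ℝ := Real.sqrt (v.1 ^ 2 + v.2 ^ 2)

theorem len_smul (a : ℝ) (v : ℝ × ℝ) : len (a • v) = |a| * len v := by
  unfold len
  rw [← Real.sqrt_sq_eq_abs, ← Real.sqrt_mul (sq_nonneg a)]
  congr 1
  simp
  ring

theorem measurable_len : Measurable len := by
  unfold len
  fun_prop

theorem meas_rs (W : ℤ → ℝ) (ε E : ℝ) (b : ℤ) (j : ℕ) :
    Measurable (fun p : (ℤ → ℝ) × (ℝ × ℝ) => rs (fun n => W n + ε * p.1 n) E b j p.2) := by
  induction j with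
  | zero => exact measurable_snd
  | succ j ih =>
    simp only [rs, stp]
    have h1 : Measurable (fun p : (ℤ → ℝ) × (ℝ × ℝ) => p.1 (b - j)) :=
      (measurable_pi_apply _).comp measurable_fst
    exact (((measurable_const.sub (measurable_const.add (measurable_const.mul h1))).mul
      ih.fst).sub ih.snd).prodMk ih.fst

/-- the expectation of the inverse of the length -/
noncomputable def FF (W : ℤ → ℝ) (ε E : ℝ) (b : ℤ) (j : ℕ) (v : ℝ × ℝ) : ℝ≥0∞ :=
  ∫⁻ x, ENNReal.ofReal (1 / len (rs (fun n => W n + ε * x n) E b j v)) ∂PZ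

theorem meas_FF (W : ℤ → ℝ) (ε E : ℝ) (b : ℤ) (j : ℕ) : Measurable (FF W ε E b j) := by
  unfold FF
  have h : Measurable (fun p : (ℤ → ℝ) × (ℝ × ℝ) =>
      ENNReal.ofReal (1 / len (rs (fun n => W n + ε * p.1 n) E b j p.2))) :=
    ENNReal.measurable_ofReal.comp
      (measurable_const.div (measurable_len.comp (meas_rs W ε E b j)))
  exact h.lintegral_prod_left'

theorem resample (i : ℤ) {Φ : (ℤ → ℝ) → ℝ≥0∞} (hΦ : Measurable Φ) :
    ∫⁻ x, Φ x ∂PZ = ∫⁻ s, ∫⁻ x, Φ (Function.update x i s) ∂PZ ∂U := by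
  have h := Pool.Agent.H853R3.PP.Resample.taskResample ℤ (fun _ => ℝ) (fun _ => U) i
  have hm := Pool.Agent.H853R3.PP.Resample.measurable_upd (X := fun _ : ℤ => ℝ) i
  have h1 : PZ = Measure.map (fun p : (ℤ → ℝ) × ℝ => Function.update p.1 i p.2)
      (PZ.prod U) := h.symm
  conv_lhs => rw [h1]
  rw [lintegral_map hΦ hm]
  exact lintegral_prod_symm _ (hΦ.comp hm).aemeasurable

theorem FF_succ (W : ℤ → ℝ) (ε E : ℝ) (b : ℤ) (j : ℕ) (v : ℝ × ℝ) :
    FF W ε E b (j + 1) v = ∫⁻ s, FF W ε E (b - 1) j (stp E (W b + ε * s) v) ∂U := by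
  unfold FF
  have hm : Measurable (fun x : ℤ → ℝ =>
      ENNReal.ofReal (1 / len (rs (fun n => W n + ε * x n) E b (j + 1) v))) :=
    ENNReal.measurable_ofReal.comp
      (measurable_const.div (measurable_len.comp
        ((meas_rs W ε E b (j + 1)).comp (measurable_id.prodMk measurable_const))))
  rw [resample b hm]
  refine lintegral_congr fun s => lintegral_congr fun x => ?_
  rw [rs_succ']
  simp only [Function.update_self]
  congr 3
  apply rs_congr
  intro n hn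
  rw [Function.update_of_ne (by omega)]

theorem FF_hom (W : ℤ → ℝ) (ε E : ℝ) (b : ℤ) (j : ℕ) (p q : ℝ) (hq : q ≠ 0) :
    FF W ε E b j (p, q) = ENNReal.ofReal |q|⁻¹ * FF W ε E b j (p / q, 1) := by
  unfold FF
  rw [← lintegral_const_mul' _ _ ENNReal.ofReal_ne_top]
  refine lintegral_congr fun x => ?_
  have h1 : ((p, q) : ℝ × ℝ) = q • ((p / q, 1) : ℝ × ℝ) := by
    ext
    · simp
      field_simp
    · simp
  conv_lhs => rw [h1]
  rw [rs_smul, len_smul, ← ENNReal.ofReal_mul (by positivity)]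
  congr 1
  rw [one_div, one_div, mul_inv]

theorem U_neg (g : ℝ → ℝ≥0∞) : ∫⁻ s, g (-s) ∂U = ∫⁻ s, g s ∂U := by
  unfold U
  rw [lintegral_smul_measure, lintegral_smul_measure]
  congr 1
  rw [← lintegral_indicator measurableSet_Icc, ← lintegral_indicator measurableSet_Icc,
    ← lintegral_neg_eq_self ((Set.Icc (-1 : ℝ) 1).indicator g)]
  refine lintegral_congr fun s => ?_
  by_cases hs : s ∈ Set.Icc (-1 : ℝ) 1
  · have : -s ∈ Set.Icc (-1 : ℝ) 1 := ⟨by linarith [hs.2], by linarith [hs.1]⟩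
    rw [Set.indicator_of_mem hs, Set.indicator_of_mem this]
  · have : -s ∉ Set.Icc (-1 : ℝ) 1 := fun h => hs ⟨by linarith [h.2], by linarith [h.1]⟩
    rw [Set.indicator_of_notMem hs, Set.indicator_of_notMem this]

theorem U_singleton (a : ℝ) : U {a} = 0 := by
  unfold U
  simp

/-- the function of the direction -/
noncomputable def ff (W : ℤ → ℝ) (ε E : ℝ) (b : ℤ) (j : ℕ) (y : ℝ) : ℝ≥0∞ :=
  FF W ε E b j (y, 1)

theorem meas_ff (W : ℤ → ℝ) (ε E : ℝ) (b : ℤ) (j : ℕ) : Measurable (ff W ε E b j) :=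
  (meas_FF W ε E b j).comp (measurable_id.prodMk measurable_const)

theorem ff_succ (W : ℤ → ℝ) (ε E : ℝ) (b : ℤ) (j : ℕ) (z : ℝ) (hz : z ≠ 0) :
    ff W ε E b (j + 1) z = UR (E - W b) (avg ε (ff W ε E (b - 1) j)) z := by
  unfold ff UR avg
  rw [FF_succ, ← lintegral_const_mul' _ _ ENNReal.ofReal_ne_top,
    ← U_neg (fun s => ENNReal.ofReal |z|⁻¹ * FF W ε E (b - 1) j (E - W b - z⁻¹ + ε * s, 1))]
  refine lintegral_congr fun s => ?_
  simp only [stp]
  rw [FF_hom _ _ _ _ _ _ _ hz]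
  congr 3
  field_simp
  ring

theorem nsqL_succ (hI : TaskIso) (hA : TaskAvg) (W : ℤ → ℝ) (ε E : ℝ) (b : ℤ) (j : ℕ)
    (hε : 0 < ε) (hε1 : ε ≤ 1) :
    nsqL (ff W ε E b (j + 1)) = nsqL (avg ε (ff W ε E (b - 1) j)) := by
  have hm := (hA ε _ hε hε1 (meas_ff W ε E (b - 1) j)).1
  rw [← (hI (E - W b) _ hm).1]
  unfold nsqL
  apply lintegral_congr_ae
  have : ∀ᵐ z : ℝ, z ≠ 0 := by simp [ae_iff, measure_singleton]
  filter_upwards [this] with z hz
  rw [ff_succ _ _ _ _ _ _ hz]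

theorem avg_succ (W : ℤ → ℝ) (ε E : ℝ) (b : ℤ) (j : ℕ) (hε : 0 < ε) :
    avg ε (ff W ε E b (j + 1)) = avg ε (UR (E - W b) (avg ε (ff W ε E (b - 1) j))) := by
  funext x
  conv_lhs => unfold avg
  conv_rhs => rw [avg]
  apply lintegral_congr_ae
  have : ∀ᵐ s ∂U, x + ε * s ≠ 0 := by
    rw [ae_iff]
    refine measure_mono_null (t := {-x / ε}) ?_ (U_singleton _)
    intro s hs
    simp only [ne_eq, not_not] at hs
    change x + ε * s = 0 at hs
    rw [Set.mem_singleton_iff, eq_div_iff hε.ne']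
    linarith
  filter_upwards [this] with s hs
  rw [ff_succ _ _ _ _ _ _ hs]

theorem nsqL_zero (W : ℤ → ℝ) (ε E : ℝ) (b : ℤ) :
    nsqL (ff W ε E b 0) = ENNReal.ofReal Real.pi := by
  unfold nsqL
  rw [← integral_univ_inv_one_add_sq,
    ofReal_integral_eq_lintegral_ofReal integrable_inv_one_add_sq
      (Filter.Eventually.of_forall fun x => by positivity)]
  refine lintegral_congr fun y => ?_
  unfold ff FF
  simp only [rs, len, lintegral_const, measure_univ, mul_one]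
  rw [← ENNReal.ofReal_pow (by positivity)]
  congr 1
  rw [one_pow, div_pow, one_pow, Real.sq_sqrt (by positivity), one_div, add_comm]

theorem A_bound (hA : TaskAvg) (hI : TaskIso) {c : ℝ} (hc : 0 < c) (hc2 : c ≤ 1 / 2)
    (hC : ∀ (ε c₁ : ℝ) (g : ℝ → ℝ≥0∞), 0 < ε → ε ≤ 1 → Measurable g →
      nsqL (avg ε (UR c₁ (avg ε g))) ≤ ENNReal.ofReal (1 - c * ε ^ 2) * nsqL g)
    (W : ℤ → ℝ) (ε E : ℝ) (hε : 0 < ε) (hε1 : ε ≤ 1) (m : ℕ) : ∀ b : ℤ,
    nsqL (ff W ε E b (2 * m)) ≤ ENNReal.ofReal (Real.pi * (1 - c * ε ^ 2) ^ m) ∧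
      nsqL (ff W ε E b (2 * m + 1)) ≤ ENNReal.ofReal (Real.pi * (1 - c * ε ^ 2) ^ m) := by
  have hρ : 0 ≤ 1 - c * ε ^ 2 := by
    have : ε ^ 2 ≤ 1 := by nlinarith
    nlinarith
  induction m with
  | zero =>
    intro b
    refine ⟨by simp [nsqL_zero], ?_⟩
    rw [nsqL_succ hI hA _ _ _ _ _ hε hε1]
    refine ((hA ε _ hε hε1 (meas_ff W ε E (b - 1) (2 * 0))).2.1).trans ?_
    simp [nsqL_zero]
  | succ m ih =>
    have key : ∀ (b : ℤ) (j : ℕ), nsqL (ff W ε E b (j + 2)) ≤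
        ENNReal.ofReal (1 - c * ε ^ 2) * nsqL (ff W ε E (b - 1 - 1) j) := by
      intro b j
      rw [show j + 2 = (j + 1) + 1 by ring, nsqL_succ hI hA _ _ _ _ _ hε hε1,
        avg_succ _ _ _ _ _ hε]
      exact hC _ _ _ hε hε1 (meas_ff _ _ _ _ _)
    intro b
    have e1 : ENNReal.ofReal (Real.pi * (1 - c * ε ^ 2) ^ (m + 1)) =
        ENNReal.ofReal (1 - c * ε ^ 2) * ENNReal.ofReal (Real.pi * (1 - c * ε ^ 2) ^ m) := by
      rw [← ENNReal.ofReal_mul hρ]
      congr 1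
      ring
    constructor
    · rw [show 2 * (m + 1) = 2 * m + 2 by ring, e1]
      refine (key b (2 * m)).trans ?_
      gcongr
      exact (ih _).1
    · rw [show 2 * (m + 1) + 1 = (2 * m + 1) + 2 by ring, e1]
      refine (key b (2 * m + 1)).trans ?_
      gcongr
      exact (ih _).2

theorem t_J (hA : TaskAvg) (hI : TaskIso) (hC : TaskContr) : TaskJ := by
  obtain ⟨c, hc, hc2, hC⟩ := hC
  refine ⟨c / 4, 3, by positivity, by linarith, by norm_num, ?_⟩
  intro ε E W b L hε hε1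
  have hε2 : 0 < ε ^ 2 := by positivity
  have hε2' : ε ^ 2 ≤ 1 := by nlinarith
  set ρ := 1 - c / 4 * ε ^ 2 with hρ
  have hρ1 : ρ ≤ 1 := by rw [hρ]; nlinarith
  have hρ0 : 7 / 8 ≤ ρ := by rw [hρ]; nlinarith
  have hρp : 0 < ρ := by linarith
  have hrl : ∀ x : ℤ → ℝ, rlen (fun n => W n + ε * x n) E b L =
      len (rs (fun n => W n + ε * x n) E b L (1, 0)) := by
    intro x
    unfold rlen len
    rw [rsol_eq]
  simp only [hrl]
  change FF W ε E b L (1, 0) ≤ _
  rcases L with _ | L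
  · unfold FF
    simp only [rs, len, lintegral_const, measure_univ, mul_one, pow_zero]
    apply ENNReal.ofReal_le_ofReal
    norm_num
    rw [le_div_iff₀ hε]
    linarith
  · have h1 : FF W ε E b (L + 1) (1, 0) = avg ε (ff W ε E (b - 1) L) (E - W b) := by
      rw [FF_succ]
      unfold avg ff
      rw [← U_neg (fun s => FF W ε E (b - 1) L (E - W b + ε * s, 1))]
      refine lintegral_congr fun s => ?_
      congr 1
      simp only [stp]
      ext
      · simp
        ring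
      · simp
    rw [h1]
    refine ((hA ε _ hε hε1 (meas_ff W ε E (b - 1) L)).2.2.2 _).trans ?_
    -- the norm of `f_L`
    have h2 : ∃ m : ℕ, L + 1 ≤ 2 * m + 2 ∧
        nsqL (ff W ε E (b - 1) L) ≤ ENNReal.ofReal (Real.pi * (1 - c * ε ^ 2) ^ m) := by
      rcases Nat.even_or_odd' L with ⟨m, hm | hm⟩
      · refine ⟨m, by omega, ?_⟩
        rw [hm]
        exact (A_bound hA hI hc hc2 hC W ε E hε hε1 m _).1
      · refine ⟨m, by omega, ?_⟩
        rw [hm]
        exact (A_bound hA hI hc hc2 hC W ε E hε hε1 m _).2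
    obtain ⟨m, hm, h3⟩ := h2
    have h4 : 1 - c * ε ^ 2 ≤ ρ ^ 4 := by
      have := one_add_mul_le_pow (a := -(c / 4 * ε ^ 2)) (by nlinarith) 4
      have h5 : (1 + -(c / 4 * ε ^ 2)) = ρ := by rw [hρ]; ring
      rw [h5] at this
      push_cast at this
      linarith
    have h0 : 0 ≤ 1 - c * ε ^ 2 := by nlinarith
    have h6 : Real.pi * (1 - c * ε ^ 2) ^ m ≤ (2 * ρ ^ (2 * m)) ^ 2 := by
      have h7 : (1 - c * ε ^ 2) ^ m ≤ (ρ ^ 4) ^ m := pow_le_pow_left₀ h0 h4 m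
      have h8 : (2 * ρ ^ (2 * m)) ^ 2 = 4 * (ρ ^ 4) ^ m := by
        rw [mul_pow, ← pow_mul, ← pow_mul]
        norm_num
        ring
      rw [h8]
      exact mul_le_mul Real.pi_le_four h7 (pow_nonneg h0 _) (by norm_num)
    have h9 : nsqL (ff W ε E (b - 1) L) ^ (1 / 2 : ℝ) ≤ ENNReal.ofReal (2 * ρ ^ (2 * m)) := by
      calc nsqL (ff W ε E (b - 1) L) ^ (1 / 2 : ℝ)
          ≤ (ENNReal.ofReal ((2 * ρ ^ (2 * m)) ^ 2)) ^ (1 / 2 : ℝ) := by
            apply ENNReal.rpow_le_rpow _ (by norm_num)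
            exact h3.trans (ENNReal.ofReal_le_ofReal h6)
        _ = ENNReal.ofReal (2 * ρ ^ (2 * m)) := by
            rw [ENNReal.ofReal_rpow_of_nonneg (by positivity) (by norm_num)]
            congr 1
            rw [← Real.sqrt_eq_rpow, Real.sqrt_sq (by positivity)]
    calc ENNReal.ofReal (1 / Real.sqrt ε) * nsqL (ff W ε E (b - 1) L) ^ (1 / 2 : ℝ)
        ≤ ENNReal.ofReal (1 / Real.sqrt ε) * ENNReal.ofReal (2 * ρ ^ (2 * m)) := by gcongr
      _ = ENNReal.ofReal (1 / Real.sqrt ε * (2 * ρ ^ (2 * m))) :=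
          (ENNReal.ofReal_mul (by positivity)).symm
      _ ≤ ENNReal.ofReal (3 / ε * ρ ^ (L + 1)) := by
          apply ENNReal.ofReal_le_ofReal
          have h10 : 1 / Real.sqrt ε ≤ 1 / ε := by
            apply one_div_le_one_div_of_le hε
            rw [Real.le_sqrt hε.le hε.le]
            nlinarith
          have h11 : 2 * ρ ^ (2 * m) ≤ 3 * ρ ^ (L + 1) := by
            have h12 : ρ ^ (2 * m + 2) ≤ ρ ^ (L + 1) :=
              pow_le_pow_of_le_one hρp.le hρ1 hm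
            have h13 : ρ ^ (2 * m + 2) = ρ ^ (2 * m) * ρ ^ 2 := pow_add _ _ _
            have h14 : (49 : ℝ) / 64 ≤ ρ ^ 2 := by nlinarith
            have h15 : 0 < ρ ^ (2 * m) := by positivity
            nlinarith
          calc 1 / Real.sqrt ε * (2 * ρ ^ (2 * m)) ≤ 1 / ε * (3 * ρ ^ (L + 1)) :=
                mul_le_mul h10 h11 (by positivity) (by positivity)
            _ = 3 / ε * ρ ^ (L + 1) := by ring

end Pool.Agent.Run7.h189.PP
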